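import Mathlib

set_option autoImplicit false

namespace Pool.Agent.Results.MP_c12391_an.Apep

open scoped RealInnerProductSpace Topology
open Filter Metric Set

section defs

variable {X : Type} [NormedAddCommGroup X] [NormedSpace ℝ X]

/-- the slice of `C` determined by `f` and `α` -/
def slice (C : Set X) (f : StrongDual ℝ X) (α : ℝ) : Set X :=
  {x | x ∈ C ∧ sSup (f '' C) - α < f x}

/-- `W` is a relatively weakly open subset of `C` -/
def RelWeakOpen (C W : Set X) : Prop :=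
  ∃ U : Set (WeakSpace ℝ X), IsOpen U ∧ W = C ∩ toWeakSpace ℝ X ⁻¹' U

/-- almost preserved extreme point -/
def APEP (C : Set X) (x₀ : X) : Prop :=
  x₀ ∈ C ∧ ∀ W, RelWeakOpen C W → x₀ ∈ W →
    ∃ (f : StrongDual ℝ X) (α : ℝ), 0 < α ∧ (slice C f α).Nonempty ∧ slice C f α ⊆ W

/-- zero is an almost preserved extreme point of the closed unit ball -/
def ZeroAPEP (X : Type) [NormedAddCommGroup X] [NormedSpace ℝ X] : Prop :=
  APEP (closedBall (0 : X) 1) 0

lemma basis {U : Set (WeakSpace ℝ X)} (hU : IsOpen U) (h0 : toWeakSpace ℝ X 0 ∈ U) :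
    ∃ I : Finset (StrongDual ℝ X), ∀ x, (∀ φ ∈ I, φ x = 0) → toWeakSpace ℝ X x ∈ U := by
  have hind : Topology.IsInducing (fun (x : WeakBilin (topDualPairing ℝ X).flip)
      (y : X →L[ℝ] ℝ) => (topDualPairing ℝ X).flip x y) := ⟨rfl⟩
  have h1 := hU.mem_nhds h0
  obtain ⟨V, hV, hs⟩ := mem_comap.1 ((hind.nhds_eq_comap _).ge h1)
  rw [nhds_pi, Filter.mem_pi] at hV
  obtain ⟨I, hI, t, ht, hs'⟩ := hV
  refine ⟨hI.toFinset, fun x hx => hs (hs' fun φ hφ => ?_)⟩
  have h2 := mem_of_mem_nhds (ht φ)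
  have h3 : φ x = φ 0 := by rw [hx φ (hI.mem_toFinset.2 hφ), map_zero]
  change φ x ∈ t φ
  rw [h3]
  exact h2

lemma push {x v : X} (hx : ‖x‖ ≤ 1) (hv : ‖v‖ = 1) : ∃ t : ℝ, 0 ≤ t ∧ ‖x + t • v‖ = 1 := by
  have hc : ContinuousOn (fun t : ℝ => ‖x + t • v‖) (Icc 0 2) := by fun_prop
  have h2 : 1 ≤ ‖x + (2 : ℝ) • v‖ := by
    have := norm_sub_le (x + (2 : ℝ) • v) x
    rw [add_sub_cancel_left, norm_smul, hv, Real.norm_two] at this
    linarith
  obtain ⟨t, ht, h⟩ := intermediate_value_Icc zero_le_two hc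
    (show (1 : ℝ) ∈ Icc _ _ from ⟨by simpa using hx, h2⟩)
  exact ⟨t, ht.1, h⟩

end defs

/-- the Euclidean space of dimension `n + 1` -/
abbrev E (n : ℕ) : Type := EuclideanSpace ℝ (Fin (n + 1))

lemma not_apep (n : ℕ) : ¬ APEP (closedBall (0 : E n) 1) 0 := by
  rintro ⟨-, h⟩
  have hc : Continuous fun x : WeakSpace ℝ (E n) =>
      ∑ i, (EuclideanSpace.proj (𝕜 := ℝ) i ((toWeakSpace ℝ (E n)).symm x)) ^ 2 :=
    continuous_finsetSum _ fun i _ =>
      (WeakBilin.eval_continuous (topDualPairing ℝ (E n)).flip (EuclideanSpace.proj i)).pow 2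
  obtain ⟨f, α, hα, ⟨x, hx, hfx⟩, hs⟩ := h _ ⟨_, isOpen_lt hc continuous_const (g := fun _ => 1),
    rfl⟩ ⟨mem_closedBall_self zero_le_one, by simp⟩
  obtain ⟨v, hv, hf⟩ : ∃ v : E n, ‖v‖ = 1 ∧ 0 ≤ f v := by
    obtain ⟨v, hv⟩ := exists_norm_eq (E n) zero_le_one
    rcases le_total 0 (f v) with h | h
    · exact ⟨v, hv, h⟩
    · exact ⟨-v, by rw [norm_neg, hv], by rw [map_neg]; linarith⟩
  obtain ⟨t, ht, h1⟩ := push (mem_closedBall_zero_iff.1 hx) hv
  have h2 := (hs (show x + t • v ∈ slice _ f α from ⟨mem_closedBall_zero_iff.2 h1.le, by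
    rw [map_add, map_smul, smul_eq_mul]; linarith [mul_nonneg ht hf]⟩)).2
  have h3 := EuclideanSpace.real_norm_sq_eq (x + t • v)
  rw [h1] at h3
  change ∑ i, ((x + t • v) i) ^ 2 < 1 at h2
  linarith

lemma apep : APEP (closedBall (0 : lp E 1) 1) 0 := by
  classical
  refine ⟨mem_closedBall_self zero_le_one, ?_⟩
  rintro _ ⟨U, hU, rfl⟩ ⟨-, h0⟩
  obtain ⟨I, hI⟩ := basis hU h0
  set n := I.card
  let L : E n →ₗ[ℝ] (I → ℝ) := LinearMap.pi fun φ =>
    (φ.1.comp (lp.singleContinuousLinearMap ℝ E 1 n)).toLinearMap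
  have hL : LinearMap.ker L ≠ ⊥ := LinearMap.ker_ne_bot_of_finrank_lt (by simp [n])
  obtain ⟨w, hw, hw0⟩ := (Submodule.ne_bot_iff _).1 hL
  set u : E n := ‖w‖⁻¹ • w
  have hu : ‖u‖ = 1 := norm_smul_inv_norm hw0
  have hLu : L u = 0 := by rw [map_smul, LinearMap.mem_ker.1 hw, smul_zero]
  have h1 : toWeakSpace ℝ _ (lp.single 1 n u : lp E 1) ∈ U :=
    hI _ fun φ hφ => congrFun hLu ⟨φ, hφ⟩
  have h2 : IsOpen (toWeakSpace ℝ (lp E 1) ⁻¹' U) :=
    hU.preimage (toWeakSpaceCLM ℝ (lp E 1)).continuous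
  obtain ⟨δ, hδ, hb⟩ := Metric.isOpen_iff.1 h2 (lp.single 1 n u) h1
  let f : StrongDual ℝ (lp E 1) := (innerSL ℝ u).comp (lp.evalCLM ℝ E 1 n)
  have hf : ∀ x, f x = ⟪u, x n⟫ := fun x => rfl
  have hn : ‖(lp.single 1 n u : lp E 1)‖ = 1 := by rw [lp.norm_single one_pos, hu]
  have hfu : f (lp.single 1 n u) = 1 := by
    rw [hf, lp.single_apply_self, real_inner_self_eq_norm_sq, hu, one_pow]
  have hle : ∀ x : lp E 1, f x ≤ ‖x n‖ := fun x => by
    have := real_inner_le_norm u (x n)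
    rwa [hu, one_mul] at this
  have hg : IsGreatest (f '' closedBall 0 1) 1 := by
    refine ⟨⟨_, mem_closedBall_zero_iff.2 hn.le, hfu⟩, ?_⟩
    rintro _ ⟨x, hx, rfl⟩
    exact (hle x).trans ((lp.norm_apply_le_norm one_ne_zero x n).trans
      (mem_closedBall_zero_iff.1 hx))
  refine ⟨f, min (δ / 2) (δ ^ 2 / 8), by positivity, ⟨lp.single 1 n u,
    mem_closedBall_zero_iff.2 hn.le, ?_⟩, fun x hx => ⟨hx.1, hb ?_⟩⟩
  · rw [hg.csSup_eq, hfu]
    have : 0 < min (δ / 2) (δ ^ 2 / 8) := by positivity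
    linarith
  · have k1 := hx.2
    rw [hg.csSup_eq] at k1
    have k2 := mem_closedBall_zero_iff.1 hx.1
    have k3 := lp.norm_compl_sum_single (p := 1) (by simp) x {n}
    simp only [Finset.sum_singleton, ENNReal.toReal_one, Real.rpow_one] at k3
    have k4 := (lp.norm_apply_le_norm one_ne_zero x n).trans k2
    have k5 : ‖u - x n‖ < δ / 2 := by
      refine lt_of_pow_lt_pow_left₀ 2 (by positivity) ?_
      rw [norm_sub_sq_real, hu, ← hf]
      nlinarith [min_le_right (δ / 2) (δ ^ 2 / 8), norm_nonneg (x n)]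
    have k6 : x - lp.single 1 n u = (x - lp.single 1 n (x n)) - lp.single 1 n (u - x n) := by
      rw [lp.single_sub]; abel
    rw [mem_ball, dist_eq_norm, k6]
    refine (norm_sub_le _ _).trans_lt ?_
    rw [k3, lp.norm_single one_pos]
    linarith [min_le_left (δ / 2) (δ ^ 2 / 8), hle x]

/-- Zero can be an almost preserved extreme point of the unit ball of the sum and of no
summand. -/
theorem result : ∃ (I : Type) (_ : Infinite I) (X : I → Type) (_ : ∀ i, NormedAddCommGroup (X i))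
    (_ : ∀ i, NormedSpace ℝ (X i)) (_ : ∀ i, CompleteSpace (X i)),
    ZeroAPEP (lp X 1) ∧ ∀ i, Nontrivial (X i) ∧ ¬ ZeroAPEP (X i) :=
  ⟨ℕ, inferInstance, E, inferInstance, inferInstance, inferInstance, apep,
    fun n => ⟨inferInstance, not_apep n⟩⟩

end Pool.Agent.Results.MP_c12391_an.Apep
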